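import Pool.Agent.R812.RTree

/-!
# A complete, connected, locally connected, absolutely homogeneous metric space which is not
locally compact
-/

set_option autoImplicit false

namespace Pool.Agent.Results.MP_079cdc_gt.TreeExample

open Pool.Agent.R812.RTree Topology

/-- There is a complete metric space which is absolutely homogeneous, connected and locally
connected, and in which no point has a compact neighbourhood. -/
theorem result : ∃ (X : Type) (_ : MetricSpace X), CompleteSpace X ∧
    (∀ (A B : Set X) (f : A ≃ᵢ B), ∃ g : X ≃ᵢ X, ∀ a : A, g a = f a) ∧
    ConnectedSpace X ∧ LocallyConnectedSpace X ∧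
    ∀ (x : X) (K : Set X), K ∈ 𝓝 x → ¬ IsCompact K :=
  ⟨T, inferInstance, inferInstance, absHomogeneous, inferInstance, inferInstance, not_compact⟩

end Pool.Agent.Results.MP_079cdc_gt.TreeExample
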